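import Mathlib
import Pool.Agent.H812.SF.Stm2

/-!
Project SF (helper812), part SIM: a domain which is not a disc is not similar to domains
arbitrarily close to discs.
-/

set_option autoImplicit false

open Set Filter Topology MeasureTheory

namespace Pool.Agent.H685.SfSIM

open Pool.Agent.N229.SC Pool.Agent.H812.SF

/-- The similarity has a centre: pulling back the two inclusions. -/
theorem pull {D Ω : Set E2} (h : Similar D Ω) {a b r : ℝ}
    (h1 : Metric.ball 0 (a * r) ⊆ Ω) (h2 : Ω ⊆ Metric.ball 0 (b * r)) (hr : 0 < r) :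
    ∃ (q : E2) (s : ℝ), 0 < s ∧ Metric.ball q (a * s) ⊆ D ∧ D ⊆ Metric.ball q (b * s) := by
  obtain ⟨k, T, c, hk, rfl⟩ := h
  have hnorm : ∀ x : E2, ‖k • T x + c‖ = k * ‖x - (-(k⁻¹ • T.symm c))‖ := by
    intro x
    have e1 : k • T x + c = k • T (x - (-(k⁻¹ • T.symm c))) := by
      rw [sub_neg_eq_add, map_add, map_smul, LinearIsometryEquiv.apply_symm_apply, smul_add,
        smul_smul, mul_inv_cancel₀ hk.ne', one_smul]
    rw [e1, norm_smul, LinearIsometryEquiv.norm_map, Real.norm_of_nonneg hk.le]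
  refine ⟨-(k⁻¹ • T.symm c), r / k, div_pos hr hk, ?_, ?_⟩
  · intro x hx
    rw [mem_ball_iff_norm] at hx
    have h3 : k • T x + c ∈ Metric.ball (0 : E2) (a * r) := by
      rw [mem_ball_zero_iff, hnorm]
      calc k * ‖x - (-(k⁻¹ • T.symm c))‖ < k * (a * (r / k)) := mul_lt_mul_of_pos_left hx hk
        _ = a * r := by
          field_simp
    obtain ⟨y, hy, hxy⟩ := h1 h3
    have h4 : y = x := by
      have h5 : k • T y = k • T x := add_right_cancel hxy
      have h6 : T y = T x := by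
        have h7 := congrArg (fun z => k⁻¹ • z) h5
        simpa only [smul_smul, inv_mul_cancel₀ hk.ne', one_smul] using h7
      exact T.injective h6
    rw [← h4]
    exact hy
  · intro x hx
    have h3 : k • T x + c ∈ Metric.ball (0 : E2) (b * r) := h2 ⟨x, hx, rfl⟩
    rw [mem_ball_zero_iff, hnorm] at h3
    rw [mem_ball_iff_norm]
    have h4 : b * (r / k) = b * r / k := by ring
    rw [h4, lt_div_iff₀ hk, mul_comm]
    exact h3

theorem proof_SIM : S_SIM := by
  intro D hDo hDb hDn hDd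
  by_contra hcon
  push Not at hcon
  -- the sequence
  have hη : ∀ m : ℕ, (0 : ℝ) < 1 / ((m : ℝ) + 2) ∧ 1 / ((m : ℝ) + 2) ≤ 1 / 2 := by
    intro m
    have hm : (0 : ℝ) ≤ (m : ℝ) := Nat.cast_nonneg m
    refine ⟨by positivity, ?_⟩
    apply one_div_le_one_div_of_le (by norm_num)
    linarith
  have hseq : ∀ m : ℕ, ∃ (q : E2) (s : ℝ), 0 < s ∧
      Metric.ball q ((1 - 1 / ((m : ℝ) + 2)) * s) ⊆ D ∧
      D ⊆ Metric.ball q ((1 + 1 / ((m : ℝ) + 2)) * s) := by
    intro m
    obtain ⟨Ω, hΩ, r, hr, h1, h2⟩ := hcon (1 / ((m : ℝ) + 2)) (hη m).1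
      (lt_of_le_of_lt (hη m).2 (by norm_num))
    exact pull hΩ h1 h2 hr
  choose q s hs hin hout using hseq
  obtain ⟨R, hR⟩ := hDb.subset_ball (0 : E2)
  have hrad : ∀ m : ℕ, (1 / 2) * s m ≤ (1 - 1 / ((m : ℝ) + 2)) * s m := fun m =>
    mul_le_mul_of_nonneg_right (by linarith [(hη m).2]) (hs m).le
  have hqR : ∀ m, ‖q m‖ < R := by
    intro m
    have h1 : q m ∈ Metric.ball (q m) ((1 - 1 / ((m : ℝ) + 2)) * s m) :=
      Metric.mem_ball_self (lt_of_lt_of_le (mul_pos (by norm_num) (hs m)) (hrad m))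
    have h2 := hR (hin m h1)
    rwa [mem_ball_zero_iff] at h2
  have hR0 : 0 < R := lt_of_le_of_lt (norm_nonneg _) (hqR 0)
  have hsR : ∀ m, s m ≤ 8 * R := by
    intro m
    let e : E2 := EuclideanSpace.single 0 1
    have he : ‖e‖ = 1 := by
      simp [e]
    have h1 : q m + (s m / 4) • e ∈ Metric.ball (q m) ((1 - 1 / ((m : ℝ) + 2)) * s m) := by
      rw [mem_ball_iff_norm, add_sub_cancel_left, norm_smul, he, mul_one,
        Real.norm_of_nonneg (by linarith [hs m])]
      linarith [hs m, hrad m]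
    have h2 := hR (hin m h1)
    rw [mem_ball_zero_iff] at h2
    have h3 : ‖(s m / 4) • e‖ = s m / 4 := by
      rw [norm_smul, he, mul_one, Real.norm_of_nonneg (by linarith [hs m])]
    have h4 : ‖(s m / 4) • e‖ ≤ ‖q m + (s m / 4) • e‖ + ‖q m‖ := by
      have h5 := norm_sub_le (q m + (s m / 4) • e) (q m)
      rwa [add_sub_cancel_left] at h5
    rw [h3] at h4
    linarith [hqR m]
  -- the subsequence
  have hcomp : IsCompact ((Metric.closedBall (0 : E2) R) ×ˢ (Set.Icc (0 : ℝ) (8 * R))) :=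
    (isCompact_closedBall (0 : E2) R).prod isCompact_Icc
  obtain ⟨⟨q₀, s₀⟩, hmem, φ, hφ, hlim⟩ := hcomp.tendsto_subseq (x := fun m => (q m, s m))
    (fun m => ⟨mem_closedBall_zero_iff.2 (hqR m).le, (hs m).le, hsR m⟩)
  have hs0 : 0 ≤ s₀ := hmem.2.1
  have hlq : Tendsto (fun m => q (φ m)) atTop (𝓝 q₀) :=
    (continuous_fst.tendsto (q₀, s₀)).comp hlim
  have hls : Tendsto (fun m => s (φ m)) atTop (𝓝 s₀) :=
    (continuous_snd.tendsto (q₀, s₀)).comp hlim
  have hle : Tendsto (fun m : ℕ => 1 / (((φ m : ℕ) : ℝ) + 2)) atTop (𝓝 0) := by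
    have h1 : Tendsto (fun m : ℕ => ((φ m : ℕ) : ℝ) + 2) atTop atTop :=
      tendsto_atTop_add_const_right _ _ (tendsto_natCast_atTop_atTop.comp hφ.tendsto_atTop)
    have h2 := h1.inv_tendsto_atTop
    refine h2.congr fun m => ?_
    simp only [Pi.inv_apply, one_div]
  have hlin : Tendsto (fun m => (1 - 1 / (((φ m : ℕ) : ℝ) + 2)) * s (φ m)) atTop (𝓝 s₀) := by
    have h1 := (tendsto_const_nhds (x := (1 : ℝ))).sub hle
    have h2 := h1.mul hls
    rwa [sub_zero, one_mul] at h2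
  have hlout : Tendsto (fun m => (1 + 1 / (((φ m : ℕ) : ℝ) + 2)) * s (φ m)) atTop (𝓝 s₀) := by
    have h1 := (tendsto_const_nhds (x := (1 : ℝ))).add hle
    have h2 := h1.mul hls
    rwa [add_zero, one_mul] at h2
  have hlx : ∀ x : E2, Tendsto (fun m => ‖x - q (φ m)‖) atTop (𝓝 ‖x - q₀‖) := fun x =>
    (tendsto_const_nhds.sub hlq).norm
  have hsub1 : Metric.ball q₀ s₀ ⊆ D := by
    intro x hx
    rw [mem_ball_iff_norm] at hx
    have h1 := (hlx x).eventually_lt hlin hx
    obtain ⟨m, hm⟩ := h1.exists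
    exact hin (φ m) (mem_ball_iff_norm.2 hm)
  have hsub2 : D ⊆ Metric.closedBall q₀ s₀ := by
    intro x hx
    rw [mem_closedBall_iff_norm]
    refine le_of_tendsto_of_tendsto (hlx x) hlout (Eventually.of_forall fun m => ?_)
    exact (mem_ball_iff_norm.1 (hout (φ m) hx)).le
  have hsub3 : D ⊆ interior (Metric.closedBall q₀ s₀) := interior_maximal hsub2 hDo
  have hs1 : s₀ ≠ 0 := by
    intro h0
    rw [h0, Metric.closedBall_zero, interior_singleton] at hsub3
    obtain ⟨x, hx⟩ := hDn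
    exact hsub3 hx
  rw [interior_closedBall q₀ hs1] at hsub3
  exact hDd ⟨q₀, s₀, Set.Subset.antisymm hsub3 hsub1⟩

end Pool.Agent.H685.SfSIM
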